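import Pool.Agent.MP_26cd3b_lc.H27.CellDefs

set_option autoImplicit false

namespace Pool.Agent.MP_26cd3b_lc.H53

open Pool.Agent.MP_26cd3b_lc.H27

/-- a functional with prescribed coefficients -/
def fn (a b c d e : ℝ) : (Fin 5 → ℝ) →ₗ[ℝ] ℝ where
  toFun v := a * v 0 + b * v 1 + c * v 2 + d * v 3 + e * v 4
  map_add' v w := by simp only [Pi.add_apply]; ring
  map_smul' r v := by simp only [Pi.smul_apply, smul_eq_mul, RingHom.id_apply]; ring

theorem fn_apply (a b c d e p q r u v : ℝ) :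
    fn a b c d e ![p, q, r, u, v] = a * p + b * q + c * r + d * u + e * v := rfl

theorem eval (φ : (Fin 5 → ℝ) →ₗ[ℝ] ℝ) (p q r u v : ℝ) :
    φ ![p, q, r, u, v] = p * φ ![1, 0, 0, 0, 0] + q * φ ![0, 1, 0, 0, 0] + r * φ ![0, 0, 1, 0, 0]
      + u * φ ![0, 0, 0, 1, 0] + v * φ ![0, 0, 0, 0, 1] := by
  have : (![p, q, r, u, v] : Fin 5 → ℝ) = p • ![1, 0, 0, 0, 0] + q • ![0, 1, 0, 0, 0] +
      r • ![0, 0, 1, 0, 0] + u • ![0, 0, 0, 1, 0] + v • ![0, 0, 0, 0, 1] := by
    ext k
    fin_cases k <;> simp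
  rw [this]
  simp only [map_add, map_smul, smul_eq_mul]

/-- the level form `j` at the level point `l` -/
def dd (n : ℕ) (t : ℕ → ℝ) (j l : ℕ) : ℝ := pY n t l - t j * pX n l

section
variable {n : ℕ} {t : ℕ → ℝ}

theorem dd_pos (ht : StrictMonoOn t (Set.Iic n)) {j l : ℕ} (hj : j ≤ n) (h : j < l) :
    0 < dd n t j l := by
  unfold dd pX pY
  split_ifs with hl
  · have := ht (Set.mem_Iic.2 hj) (Set.mem_Iic.2 hl) h
    linarith
  · simp

theorem dd_self {j : ℕ} (hj : j ≤ n) : dd n t j j = 0 := by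
  simp [dd, pX, pY, hj]

theorem dd_neg (ht : StrictMonoOn t (Set.Iic n)) {j l : ℕ} (hj : j ≤ n) (h : l < j) :
    dd n t j l < 0 := by
  have hl : l ≤ n := by omega
  have := ht (Set.mem_Iic.2 hl) (Set.mem_Iic.2 hj) h
  simp only [dd, pX, pY, if_pos hl]
  linarith

theorem dd_nonneg (ht : StrictMonoOn t (Set.Iic n)) {j l : ℕ} (hj : j ≤ n) (h : j ≤ l) :
    0 ≤ dd n t j l := by
  rcases h.eq_or_lt with rfl | h
  · exact (dd_self hj).ge
  · exact (dd_pos ht hj h).le

theorem dd_nonpos (ht : StrictMonoOn t (Set.Iic n)) {j l : ℕ} (hj : j ≤ n) (h : l ≤ j) :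
    dd n t j l ≤ 0 := by
  rcases h.eq_or_lt with rfl | h
  · exact (dd_self hj).le
  · exact (dd_neg ht hj h).le

theorem relX {i m : ℕ} (l : ℕ) (hi : i ≤ n) (hm : m ≤ n) :
    dd n t m l * pX n i + dd n t i m * pX n l = dd n t i l * pX n m := by
  simp only [dd, pX, pY, if_pos hi, if_pos hm]
  ring

theorem relY {i m : ℕ} (l : ℕ) (hi : i ≤ n) (hm : m ≤ n) :
    dd n t m l * pY n t i + dd n t i m * pY n t l = dd n t i l * pY n t m := by
  simp only [dd, pX, pY, if_pos hi, if_pos hm]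
  ring

theorem relD {i m : ℕ} (l j : ℕ) (hi : i ≤ n) (hm : m ≤ n) :
    dd n t m l * dd n t j i + dd n t i m * dd n t j l = dd n t i l * dd n t j m := by
  have h1 := relX (t := t) l hi hm
  have h2 := relY (t := t) l hi hm
  have e : ∀ k, dd n t j k = pY n t k - t j * pX n k := fun _ => rfl
  rw [e i, e l, e m]
  linear_combination h2 - t j * h1

open Classical in
theorem fS_eq (R : ℕ → Prop) (l : ℕ) :
    fS n t R l = ∑ j ∈ (Finset.Icc 1 n).filter R, max (dd n t j l) 0 := rfl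

/-- subadditivity along three levels -/
theorem fS_sub (ht : StrictMonoOn t (Set.Iic n)) (R : ℕ → Prop) {i m l : ℕ} (him : i < m)
    (hm : m ≤ n) (hml : m < l) :
    dd n t i l * fS n t R m ≤ dd n t m l * fS n t R i + dd n t i m * fS n t R l := by
  have hi : i ≤ n := by omega
  have ha := dd_pos ht hm hml
  have hb := dd_pos ht hi him
  have hD := dd_pos ht hi (him.trans hml)
  simp only [fS_eq, Finset.mul_sum, ← Finset.sum_add_distrib]
  refine Finset.sum_le_sum fun j _ => ?_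
  have h := relD (t := t) l j hi hm
  have h1 := mul_le_mul_of_nonneg_left (le_max_left (dd n t j i) 0) ha.le
  have h2 := mul_le_mul_of_nonneg_left (le_max_left (dd n t j l) 0) hb.le
  have h3 := mul_nonneg ha.le (le_max_right (dd n t j i) 0)
  have h4 := mul_nonneg hb.le (le_max_right (dd n t j l) 0)
  rcases le_total (dd n t j m) 0 with g | g
  · rw [max_eq_right g]; linarith
  · rw [max_eq_left g]; linarith

/-- linearity across a level that is not a breakpoint -/
theorem fS_lin (ht : StrictMonoOn t (Set.Iic n)) {R : ℕ → Prop} {i : ℕ} (hm : i + 1 ≤ n)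
    (hR : ¬ R (i + 1)) :
    dd n t i (i + 2) * fS n t R (i + 1) =
      dd n t (i + 1) (i + 2) * fS n t R i + dd n t i (i + 1) * fS n t R (i + 2) := by
  classical
  have hi : i ≤ n := by omega
  simp only [fS_eq, Finset.mul_sum, ← Finset.sum_add_distrib]
  refine Finset.sum_congr rfl fun j hj => ?_
  simp only [Finset.mem_filter, Finset.mem_Icc] at hj
  have h := relD (t := t) (i + 2) j hi hm
  have hne : j ≠ i + 1 := fun e => hR (e ▸ hj.2)
  rcases le_or_gt j i with g | g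
  · rw [max_eq_left (dd_nonneg ht hj.1.2 g), max_eq_left (dd_nonneg ht hj.1.2 (by omega)),
      max_eq_left (dd_nonneg ht hj.1.2 (by omega))]
    linarith
  · rw [max_eq_right (dd_nonpos ht hj.1.2 g.le), max_eq_right (dd_nonpos ht hj.1.2 (by omega)),
      max_eq_right (dd_nonpos ht hj.1.2 (by omega))]
    ring

/-- supporting functionals of the convex function -/
theorem support (ht : StrictMonoOn t (Set.Iic n)) (R : ℕ → Prop) (w : ℕ → ℝ)
    (hw : ∀ j, 0 ≤ w j ∧ w j ≤ 1) : ∃ a b : ℝ, ∀ l,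
      0 ≤ a * pX n l + b * pY n t l + fS n t R l ∧
      (a * pX n l + b * pY n t l + fS n t R l = 0 ↔
        ∀ j, 1 ≤ j → j ≤ n → R j → (j < l → w j = 1) ∧ (l < j → w j = 0)) := by
  classical
  refine ⟨∑ j ∈ (Finset.Icc 1 n).filter R, w j * t j, -∑ j ∈ (Finset.Icc 1 n).filter R, w j,
    fun l => ?_⟩
  have e : (∑ j ∈ (Finset.Icc 1 n).filter R, w j * t j) * pX n l +
      (-∑ j ∈ (Finset.Icc 1 n).filter R, w j) * pY n t l + fS n t R l =
      ∑ j ∈ (Finset.Icc 1 n).filter R, (max (dd n t j l) 0 - w j * dd n t j l) := by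
    rw [fS_eq, neg_mul, Finset.sum_mul, Finset.sum_mul, ← Finset.sum_neg_distrib,
      ← Finset.sum_add_distrib]
    convert (Finset.sum_add_distrib ..).symm using 2 with j _
    simp only [dd]
    ring
  have hnn : ∀ j ∈ (Finset.Icc 1 n).filter R, 0 ≤ max (dd n t j l) 0 - w j * dd n t j l := by
    intro j _
    obtain ⟨h1, h2⟩ := hw j
    rcases le_total (dd n t j l) 0 with g | g
    · rw [max_eq_right g]; nlinarith
    · rw [max_eq_left g]; nlinarith
  rw [e]
  refine ⟨Finset.sum_nonneg hnn, ?_⟩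
  rw [Finset.sum_eq_zero_iff_of_nonneg hnn]
  simp only [Finset.mem_filter, Finset.mem_Icc]
  constructor
  · intro h j h1 h2 h3
    have h4 := h j ⟨⟨h1, h2⟩, h3⟩
    constructor
    · intro g
      have g1 := dd_pos ht h2 g
      rw [max_eq_left g1.le] at h4
      have : (1 - w j) * dd n t j l = 0 := by linarith
      rcases mul_eq_zero.1 this with g2 | g2
      · linarith
      · exact absurd g2 g1.ne'
    · intro g
      have g1 := dd_neg ht h2 g
      rw [max_eq_right g1.le] at h4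
      have : w j * dd n t j l = 0 := by linarith
      exact (mul_eq_zero.1 this).resolve_right g1.ne
  · rintro h j ⟨⟨h1, h2⟩, h3⟩
    obtain ⟨h4, h5⟩ := h j h1 h2 h3
    rcases lt_trichotomy j l with g | g | g
    · rw [max_eq_left (dd_pos ht h2 g).le, h4 g]; ring
    · subst g
      rw [dd_self h2]; simp
    · rw [max_eq_right (dd_neg ht h2 g).le, h5 g]; ring

end

/-- the data of a spine cell -/
structure Sp (n : ℕ) (t : ℕ → ℝ) (S T : ℕ → Prop) (y : Lb → Fin 5 → ℝ) : Prop where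
  h0 : t 0 = 0
  ht : StrictMonoOn t (Set.Iic n)
  hc : Corners y
  hy : ∀ l ≤ n + 1, y (2, l) =
      ![pX n l, pY n t l, fS n t S l, fS n t T l, fS n t (fun _ => True) l]

theorem lab_cases {N : ℕ} {a : Lb} (ha : a ∈ lab0 N) :
    a = (0, 0) ∨ a = (0, 1) ∨ a = (0, 2) ∨ ∃ l, l < N ∧ a = (2, l) := by
  obtain ⟨p, q⟩ := a
  rcases mem_lab0.1 ha with ⟨h1, h2⟩ | ⟨h1, h2⟩
  · simp only at h1 h2
    subst h1
    interval_cases q <;> simp
  · simp only at h1 h2
    subst h1
    exact Or.inr (Or.inr (Or.inr ⟨q, h2, rfl⟩))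

theorem lev {N l : ℕ} (h : l < N) : ((2, l) : Lb) ∈ lab0 N := mem_lab0.2 (Or.inr ⟨rfl, h⟩)

namespace Sp

variable {n : ℕ} {t : ℕ → ℝ} {S T : ℕ → Prop} {y : Lb → Fin 5 → ℝ}

/-- a face from explicit coefficients -/
theorem face (h : Sp n t S T y) (a b c d e : ℝ) (F : Set Lb) (hc : 0 ≤ c) (hd : 0 ≤ d)
    (he : 0 ≤ e) (h0 : c = 0 ↔ (0, 0) ∈ F) (h1 : d = 0 ↔ (0, 1) ∈ F) (h2 : e = 0 ↔ (0, 2) ∈ F)
    (hl : ∀ l ≤ n + 1, 0 ≤ a * pX n l + b * pY n t l + c * fS n t S l + d * fS n t T l +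
        e * fS n t (fun _ => True) l ∧
      (a * pX n l + b * pY n t l + c * fS n t S l + d * fS n t T l +
        e * fS n t (fun _ => True) l = 0 ↔ (2, l) ∈ F)) :
    Face (lab0 (n + 2)) y F := by
  refine ⟨fn a b c d e, fun x hx => ?_⟩
  rcases lab_cases hx with rfl | rfl | rfl | ⟨l, g, rfl⟩
  · rw [h.hc.1, fn_apply]; simpa using ⟨hc, h0⟩
  · rw [h.hc.2.1, fn_apply]; simpa using ⟨hd, h1⟩
  · rw [h.hc.2.2, fn_apply]; simpa using ⟨he, h2⟩
  · rw [h.hy l (by omega), fn_apply]; exact hl l (by omega)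

/-- a face with at most two level points is a simplex -/
theorem cut (h : Sp n t S T y) {F : Set Lb} (hF : Face (lab0 (n + 2)) y F) {i l : ℕ}
    (hil : i < l) (hl : l ≤ n + 1) (hS : ∀ m, (2, m) ∈ F → m = i ∨ m = l) {G : Set Lb}
    (hG : G ⊆ F) : Face (lab0 (n + 2)) y G := by
  classical
  have hi : i ≤ n := by omega
  have hD := dd_pos h.ht hi hil
  let g : Lb → ℝ := fun a => if a ∈ G then 0 else 1
  have hg : ∀ a, 0 ≤ g a ∧ (g a = 0 ↔ a ∈ G) := by
    intro a
    by_cases ha : a ∈ G <;> simp [g, ha]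
  let r : ℕ → ℝ := fun m => g (2, m) - (g (0, 0) * fS n t S m + g (0, 1) * fS n t T m +
    g (0, 2) * fS n t (fun _ => True) m)
  let b : ℝ := (r l - r i * pX n l) / dd n t i l
  let η := fn (r i - b * t i) b (g (0, 0)) (g (0, 1)) (g (0, 2))
  have hη : ∀ a ∈ lab0 (n + 2), a ∈ F → η (y a) = g a := by
    intro a ha haF
    rcases lab_cases ha with rfl | rfl | rfl | ⟨m, g1, rfl⟩
    · rw [h.hc.1, fn_apply]; simp
    · rw [h.hc.2.1, fn_apply]; simp
    · rw [h.hc.2.2, fn_apply]; simp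
    · rw [h.hy m (by omega), fn_apply]
      rcases hS m haF with rfl | rfl
      · simp only [pX, pY, if_pos hi, r]
        ring
      · have : b * dd n t i m = r m - r i * pX n m := div_mul_cancel₀ _ hD.ne'
        simp only [dd] at this
        have e : r m = g (2, m) - (g (0, 0) * fS n t S m + g (0, 1) * fS n t T m +
          g (0, 2) * fS n t (fun _ => True) m) := rfl
        linear_combination this + e
  refine (hF.sub η fun a ha haF => (hη a ha haF).symm ▸ (hg a).1).congr fun a ha => ?_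
  constructor
  · rintro ⟨g1, g2⟩
    exact (hg a).2.1 (hη a ha g1 ▸ g2)
  · intro g1
    exact ⟨hG g1, (hη a ha (hG g1)).trans ((hg a).2.2 g1)⟩

theorem faceA (h : Sp n t S T y) {i : ℕ} (hi : i ≤ n) {G : Set Lb}
    (hG : G ⊆ {(0, 0), (0, 1), (2, i), (2, i + 1)}) : Face (lab0 (n + 2)) y G := by
  obtain ⟨a, b, hab⟩ := support h.ht (fun _ => True) (fun j => if j ≤ i then 1 else 0)
    (fun j => by split_ifs <;> simp)
  refine h.cut (h.face a b 0 0 1 {(0, 0), (0, 1), (2, i), (2, i + 1)} le_rfl le_rfl zero_le_one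
    (by simp) (by simp) (by simp) fun l hl => ?_) (Nat.lt_succ_self i) (by omega) (by simp) hG
  simp only [zero_mul, add_zero, one_mul]
  refine ⟨(hab l).1, (hab l).2.trans ?_⟩
  simp only [Set.mem_insert_iff, Prod.mk.injEq, Set.mem_singleton_iff, true_and,
    OfNat.ofNat_ne_zero, false_and, false_or, forall_const, ite_eq_left_iff, not_le,
    zero_ne_one, imp_false, not_lt, ite_eq_right_iff, one_ne_zero]
  constructor
  · intro g
    by_contra hne
    rcases lt_or_ge l i with g1 | g1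
    · have := (g i (by omega) hi).2 g1
      omega
    · have := (g (i + 1) (by omega) (by omega)).1 (by omega)
      omega
  · intro g j _ _
    omega

theorem faceB (h : Sp n t S T y) {G : Set Lb}
    (hG : G ⊆ {(0, 0), (0, 1), (0, 2), (2, 0)}) : Face (lab0 (n + 2)) y G := by
  refine h.cut (h.face 0 1 0 0 0 {(0, 0), (0, 1), (0, 2), (2, 0)} le_rfl le_rfl le_rfl
    (by simp) (by simp) (by simp) fun l hl => ?_) (Nat.succ_pos n) le_rfl (by simp) hG
  have e : dd n t 0 l = pY n t l := by simp [dd, h.h0]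
  simp only [zero_mul, add_zero, one_mul, zero_add, ← e]
  refine ⟨dd_nonneg h.ht (Nat.zero_le _) (Nat.zero_le _), ?_⟩
  rcases Nat.eq_zero_or_pos l with rfl | g
  · simp [dd_self]
  · simp [(dd_pos h.ht (Nat.zero_le _) g).ne', g.ne']

theorem faceC (h : Sp n t S T y) {G : Set Lb}
    (hG : G ⊆ {(0, 0), (0, 1), (0, 2), (2, n + 1)}) : Face (lab0 (n + 2)) y G := by
  refine h.cut (h.face 1 0 0 0 0 {(0, 0), (0, 1), (0, 2), (2, n + 1)} le_rfl le_rfl le_rfl
    (by simp) (by simp) (by simp) fun l hl => ?_) (Nat.succ_pos n) le_rfl (by simp) hG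
  simp only [zero_mul, add_zero, one_mul, pX]
  split_ifs with g
  · have : l ≠ n + 1 := by omega
    simp [this]
  · have : l = n + 1 := by omega
    simp [this]

theorem peak (h : Sp n t S T y) (R : ℕ → Prop) {i : ℕ} (h1 : 1 ≤ i) (hi : i ≤ n) (hR : R i) :
    ∃ a b : ℝ, ∀ l, 0 ≤ a * pX n l + b * pY n t l + fS n t R l ∧
      (a * pX n l + b * pY n t l + fS n t R l = 0 ↔ l = i) := by
  obtain ⟨a, b, hab⟩ := support h.ht R (fun j => if j < i then 1 else if j = i then 1 / 2 else 0)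
    (fun j => by split_ifs <;> norm_num)
  refine ⟨a, b, fun l => ⟨(hab l).1, (hab l).2.trans ⟨fun g => ?_, ?_⟩⟩⟩
  · have := g i h1 hi hR
    norm_num at this
    omega
  · rintro rfl j _ _ _
    refine ⟨fun g => if_pos g, fun g => ?_⟩
    rw [if_neg (by omega), if_neg (by omega)]

theorem faceD (h : Sp n t S T y) {i : ℕ} (h1 : 1 ≤ i) (hi : i ≤ n) (hR : S i ∨ T i) :
    Face (lab0 (n + 2)) y {(0, 2), (2, i)} := by
  rcases hR with hR | hR
  · obtain ⟨a, b, hab⟩ := h.peak S h1 hi hR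
    refine h.cut (h.face a b 1 0 0 {(0, 1), (0, 2), (2, i)} zero_le_one le_rfl le_rfl
      (by simp) (by simp) (by simp) fun l hl => ?_) (Nat.lt_succ_self i) (by omega) (by simp)
      (Set.subset_insert _ _)
    simpa using hab l
  · obtain ⟨a, b, hab⟩ := h.peak T h1 hi hR
    refine h.cut (h.face a b 0 1 0 {(0, 0), (0, 2), (2, i)} le_rfl zero_le_one le_rfl
      (by simp) (by simp) (by simp) fun l hl => ?_) (Nat.lt_succ_self i) (by omega) (by simp)
      (Set.subset_insert _ _)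
    simpa using hab l

theorem not_far (h : Sp n t S T y) {i l : ℕ} (hil : i + 1 < l) (hl : l ≤ n + 1) :
    ¬ Ed (lab0 (n + 2)) y (2, i) (2, l) := by
  intro he
  obtain ⟨φ, hv, g1, g2, g3⟩ := he.fn
  have c0 := hv (0, 0) (by simp [mem_lab0])
  have c1 := hv (0, 1) (by simp [mem_lab0])
  have c2 := hv (0, 2) (by simp [mem_lab0])
  have g4 := g3 (2, i + 1) (lev (by omega)) (by simp) (by simp; omega)
  rw [h.hc.1] at c0
  rw [h.hc.2.1] at c1
  rw [h.hc.2.2] at c2
  rw [h.hy _ (by omega), eval] at g1 g2 g4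
  have hi : i ≤ n := by omega
  have hm : i + 1 ≤ n := by omega
  have s0 := mul_le_mul_of_nonneg_right (fS_sub h.ht S (Nat.lt_succ_self i) hm hil) c0
  have s1 := mul_le_mul_of_nonneg_right (fS_sub h.ht T (Nat.lt_succ_self i) hm hil) c1
  have s2 := mul_le_mul_of_nonneg_right
    (fS_sub h.ht (fun _ => True) (Nat.lt_succ_self i) hm hil) c2
  have hD := mul_pos (dd_pos h.ht hi (by omega : i < l)) g4
  have rx := relX (t := t) l hi hm
  have ry := relY (t := t) l hi hm
  simp only [Nat.succ_eq_add_one] at s0 s1 s2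
  refine hD.ne' (le_antisymm ?_ hD.le)
  linear_combination dd n t (i + 1) l * g1 + dd n t i (i + 1) * g2 - φ ![1, 0, 0, 0, 0] * rx -
    φ ![0, 1, 0, 0, 0] * ry + s0 + s1 + s2

theorem not_two (h : Sp n t S T y) {i : ℕ} (hm : i + 1 ≤ n) (hS : ¬ S (i + 1))
    (hT : ¬ T (i + 1)) : ¬ Ed (lab0 (n + 2)) y (0, 2) (2, i + 1) := by
  intro he
  obtain ⟨φ, -, c2, g4, g3⟩ := he.fn
  have g1 := g3 (2, i) (lev (by omega)) (by simp) (by simp)
  have g2 := g3 (2, i + 2) (lev (by omega)) (by simp) (by simp)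
  rw [h.hc.2.2] at c2
  rw [h.hy _ (by omega), eval, c2] at g1 g2 g4
  have hi : i ≤ n := by omega
  have s0 := fS_lin h.ht hm hS
  have s1 := fS_lin h.ht hm hT
  have k1 := mul_pos (dd_pos h.ht hm (by omega : i + 1 < i + 2)) g1
  have k2 := mul_pos (dd_pos h.ht hi (by omega : i < i + 1)) g2
  have rx := relX (t := t) (i + 2) hi hm
  have ry := relY (t := t) (i + 2) hi hm
  refine (add_pos k1 k2).ne' ?_
  linear_combination dd n t i (i + 2) * g4 + φ ![1, 0, 0, 0, 0] * rx + φ ![0, 1, 0, 0, 0] * ry -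
    φ ![0, 0, 1, 0, 0] * s0 - φ ![0, 0, 0, 1, 0] * s1

theorem vx (h : Sp n t S T y) : Vx (lab0 (n + 2)) y := by
  intro a ha
  rcases lab_cases ha with rfl | rfl | rfl | ⟨l, g, rfl⟩
  · exact h.faceB (by simp)
  · exact h.faceB (by simp)
  · exact h.faceB (by simp)
  · rcases le_or_gt l n with g1 | g1
    · exact h.faceA g1 (by simp)
    · obtain rfl : l = n + 1 := by omega
      exact h.faceC (by simp)

theorem corner_level (h : Sp n t S T y) {j l : ℕ} (hj : j < 3) (hl : l < n + 2) :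
    (j ≠ 2 ∨ l = 0 ∨ l = n + 1 ∨ S l ∨ T l) ↔ Ed (lab0 (n + 2)) y (0, j) (2, l) := by
  constructor
  · intro g
    refine ⟨mem_lab0.2 (Or.inl ⟨rfl, hj⟩), lev hl, by simp, ?_⟩
    by_cases g1 : l = n + 1
    · subst g1
      refine h.faceC ?_
      interval_cases j <;> simp [Set.insert_subset_iff]
    by_cases g2 : j = 2
    · subst g2
      by_cases g3 : l = 0
      · subst g3
        exact h.faceB (by simp [Set.insert_subset_iff])
      · exact h.faceD (by omega) (by omega) (by simpa [g1, g3] using g)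
    · refine h.faceA (i := l) (by omega) ?_
      interval_cases j <;> simp [Set.insert_subset_iff] at g2 ⊢
  · intro he
    by_contra g
    simp only [not_or, ne_eq, not_not] at g
    obtain ⟨rfl, g1, g2, g3, g4⟩ := g
    obtain ⟨i, rfl⟩ : ∃ i, l = i + 1 := ⟨l - 1, by omega⟩
    exact h.not_two (by omega) g3 g4 he

theorem level_level (h : Sp n t S T y) {i l : ℕ} (hil : i < l) (hl : l < n + 2) :
    i + 1 = l ↔ Ed (lab0 (n + 2)) y (2, i) (2, l) := by
  constructor
  · rintro rfl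
    exact ⟨lev (by omega), lev hl, by simp, h.faceA (i := i) (by omega)
      (by simp [Set.insert_subset_iff])⟩
  · intro he
    by_contra g
    exact h.not_far (by omega) (by omega) he

end Sp

theorem spine_cell {n : ℕ} {t : ℕ → ℝ} (h0 : t 0 = 0) (ht : StrictMonoOn t (Set.Iic n))
    (S T : ℕ → Prop) {y : Lb → Fin 5 → ℝ} (hc : Corners y)
    (hy : ∀ l ≤ n + 1, y (2, l) =
      ![pX n l, pY n t l, fS n t S l, fS n t T l, fS n t (fun _ => True) l]) :
    Vx (lab0 (n + 2)) y ∧ ∀ a b,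
      adj0 (n + 2) (fun j i => j ≠ 2 ∨ i = 0 ∨ i = n + 1 ∨ S i ∨ T i) (fun _ _ => False) a b ↔
        Ed (lab0 (n + 2)) y a b := by
  have h : Sp n t S T y := ⟨h0, ht, hc, hy⟩
  refine ⟨h.vx, fun a b => ?_⟩
  by_cases ha : a ∈ lab0 (n + 2)
  swap
  · exact ⟨fun g => absurd g.1 ha, fun g => absurd g.1 ha⟩
  by_cases hb : b ∈ lab0 (n + 2)
  swap
  · exact ⟨fun g => absurd g.2.1 hb, fun g => absurd g.2.1 hb⟩
  by_cases hab : a = b
  · exact ⟨fun g => absurd hab g.2.2.1, fun g => absurd hab g.2.2.1⟩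
  obtain ⟨p, i⟩ := a
  obtain ⟨q, l⟩ := b
  simp only [adj0, ha, hb, hab, ne_eq, not_false_eq_true, true_and, or_false]
  rcases mem_lab0.1 ha with ⟨h1, h2⟩ | ⟨h1, h2⟩ <;>
    rcases mem_lab0.1 hb with ⟨h3, h4⟩ | ⟨h3, h4⟩ <;>
    simp only at h1 h2 h3 h4 <;> subst h1 h3
  · refine iff_of_true (by simp) ⟨ha, hb, hab, h.faceB ?_⟩
    interval_cases i <;> interval_cases l <;> simp [Set.insert_subset_iff]
  · rw [← h.corner_level h2 h4]
    simp
  · rw [show Ed (lab0 (n + 2)) y (2, i) (0, l) ↔ Ed (lab0 (n + 2)) y (0, l) (2, i) from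
      ⟨Ed.symm, Ed.symm⟩, ← h.corner_level h4 h2]
    simp
  · have hne : i ≠ l := fun e => hab (by rw [e])
    rcases lt_or_gt_of_ne hne with g | g
    · rw [← h.level_level g h4]
      simp only [OfNat.ofNat_ne_zero, false_imp_iff, implies_true, forall_const, true_and]
      omega
    · rw [show Ed (lab0 (n + 2)) y (2, i) (2, l) ↔ Ed (lab0 (n + 2)) y (2, l) (2, i) from
        ⟨Ed.symm, Ed.symm⟩, ← h.level_level g h2]
      simp only [OfNat.ofNat_ne_zero, false_imp_iff, implies_true, forall_const, true_and]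
      omega

end Pool.Agent.MP_26cd3b_lc.H53
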